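import Pool.Agent.H13.Sat
import Pool.Agent.H13.Mono

/-!
# Constraint satisfaction problems as projections of satisfiability
-/

namespace H14.NS

open Finset Classical H13

section
variable {U : Type} {dm : U → ℕ} {n : ℕ}
  (emb : (Σ u : U, (Fin (dm u) ⊕ Fin (dm u + 1))) ↪ Fin n)

/-- first chain clause -/
def ecA (u : U) : Finset (Fin n × Bool) := {(emb ⟨u, Sum.inr 0⟩, true)}

/-- last chain clause -/
def ecB (u : U) : Finset (Fin n × Bool) := {(emb ⟨u, Sum.inr (Fin.last (dm u))⟩, false)}

/-- chain clause for the value `v` -/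
def ecC (u : U) (v : Fin (dm u)) : Finset (Fin n × Bool) :=
  {(emb ⟨u, Sum.inr v.castSucc⟩, false), (emb ⟨u, Sum.inl v⟩, true),
    (emb ⟨u, Sum.inr v.succ⟩, true)}

/-- clause of a constraint -/
noncomputable def ecE (S : Finset (Σ u : U, Fin (dm u))) : Finset (Fin n × Bool) :=
  S.image (fun p => (emb ⟨p.1, Sum.inl p.2⟩, false))

/-- the clauses that are always present -/
def EFixed (c : Finset (Fin n × Bool)) : Prop :=
  (∃ u, c = ecA emb u) ∨ (∃ u, c = ecB emb u) ∨ (∃ u v, c = ecC emb u v)

lemma ecE_inj (S S' : Finset (Σ u : U, Fin (dm u))) (h : ecE emb S = ecE emb S') : S = S' := by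
  have key : ∀ A B : Finset (Σ u : U, Fin (dm u)), ecE emb A = ecE emb B → A ⊆ B := by
    intro A B hAB p hp
    have h1 : (emb ⟨p.1, Sum.inl p.2⟩, false) ∈ ecE emb A := by
      unfold ecE
      exact Finset.mem_image_of_mem _ hp
    rw [hAB] at h1
    unfold ecE at h1
    rw [Finset.mem_image] at h1
    obtain ⟨p', hp', h2⟩ := h1
    have h3 := emb.injective (Prod.mk.inj h2).1
    obtain ⟨u, v⟩ := p
    obtain ⟨u', v'⟩ := p'
    simp only [Sigma.mk.injEq] at h3
    obtain ⟨h4, h5⟩ := h3
    subst h4
    simp only [heq_eq_eq, Sum.inl.injEq] at h5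
    subst h5
    exact hp'
  exact Finset.Subset.antisymm (key _ _ h) (key _ _ h.symm)

lemma card_ecE (S : Finset (Σ u : U, Fin (dm u))) : (ecE emb S).card ≤ S.card := by
  unfold ecE
  exact Finset.card_image_le

/-- satisfiability of the encoding, in terms of the set of present clauses -/
lemma encode_sat {X : Type} (con : X → Finset (Σ u : U, Fin (dm u))) (x : X → Bool)
    (F : Finset (Fin n × Bool) → Prop)
    (hF : ∀ c, F c ↔ (EFixed emb c ∨ ∃ e, c = ecE emb (con e) ∧ x e = false)) :
    (∃ τ : Fin n → Bool, ∀ c, F c → ∃ l ∈ c, τ l.1 = l.2) ↔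
      ∃ a : (u : U) → Fin (dm u), ∀ e : X, (∀ p ∈ con e, a p.1 = p.2) → x e = true := by
  constructor
  · rintro ⟨τ, hτ⟩
    have hA : ∀ u, τ (emb ⟨u, Sum.inr 0⟩) = true := by
      intro u
      obtain ⟨l, hl, h⟩ := hτ (ecA emb u) ((hF _).2 (Or.inl (Or.inl ⟨u, rfl⟩)))
      unfold ecA at hl
      rw [Finset.mem_singleton] at hl
      rw [hl] at h
      exact h
    have hB : ∀ u, τ (emb ⟨u, Sum.inr (Fin.last (dm u))⟩) = false := by
      intro u
      obtain ⟨l, hl, h⟩ := hτ (ecB emb u) ((hF _).2 (Or.inl (Or.inr (Or.inl ⟨u, rfl⟩))))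
      unfold ecB at hl
      rw [Finset.mem_singleton] at hl
      rw [hl] at h
      exact h
    have hC : ∀ u v, τ (emb ⟨u, Sum.inr (Fin.castSucc v)⟩) = false ∨
        τ (emb ⟨u, Sum.inl v⟩) = true ∨ τ (emb ⟨u, Sum.inr (Fin.succ v)⟩) = true := by
      intro u v
      obtain ⟨l, hl, h⟩ := hτ (ecC emb u v) ((hF _).2 (Or.inl (Or.inr (Or.inr ⟨u, v, rfl⟩))))
      unfold ecC at hl
      simp only [Finset.mem_insert, Finset.mem_singleton] at hl
      rcases hl with hl | hl | hl
      · rw [hl] at h; exact Or.inl h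
      · rw [hl] at h; exact Or.inr (Or.inl h)
      · rw [hl] at h; exact Or.inr (Or.inr h)
    have hex : ∀ u, ∃ v, τ (emb ⟨u, Sum.inl v⟩) = true := by
      intro u
      by_contra hno
      push Not at hno
      have hall : ∀ j : Fin (dm u + 1), τ (emb ⟨u, Sum.inr j⟩) = true := by
        intro j
        induction j using Fin.induction with
        | zero => exact hA u
        | succ v ih =>
          rcases hC u v with h | h | h
          · rw [ih] at h; exact absurd h (by simp)
          · exact absurd h (hno v)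
          · exact h
      have h1 := hall (Fin.last (dm u))
      rw [hB u] at h1
      exact absurd h1 (by simp)
    choose a ha using hex
    refine ⟨a, ?_⟩
    intro e hin
    by_contra hx
    rw [Bool.not_eq_true] at hx
    obtain ⟨l, hl, h⟩ := hτ (ecE emb (con e)) ((hF _).2 (Or.inr ⟨e, rfl, hx⟩))
    unfold ecE at hl
    rw [Finset.mem_image] at hl
    obtain ⟨p, hp, hpl⟩ := hl
    rw [← hpl] at h
    dsimp only at h
    rw [← hin p hp, ha p.1] at h
    exact absurd h (by simp)
  · rintro ⟨a, ha⟩
    set g : (Σ u : U, (Fin (dm u) ⊕ Fin (dm u + 1))) → Bool := fun w =>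
      Sum.elim (fun v => decide (v = a w.1))
        (fun j => decide (j.val ≤ (a w.1).val)) w.2 with hg
    refine ⟨Function.extend emb g (fun _ => false), ?_⟩
    have hext : ∀ w, Function.extend emb g (fun _ => false) (emb w) = g w := fun w =>
      emb.injective.extend_apply g _ w
    intro c hc
    rw [hF] at hc
    rcases hc with (⟨u, rfl⟩ | ⟨u, rfl⟩ | ⟨u, v, rfl⟩) | ⟨e, rfl, hx⟩
    · refine ⟨_, Finset.mem_singleton_self _, ?_⟩
      dsimp only
      rw [hext]
      simp [hg]
    · refine ⟨_, Finset.mem_singleton_self _, ?_⟩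
      dsimp only
      rw [hext]
      simp [hg]
    · unfold ecC
      rcases lt_trichotomy v (a u) with h | h | h
      · refine ⟨(emb ⟨u, Sum.inr v.succ⟩, true), by simp, ?_⟩
        dsimp only
        rw [hext]
        simp only [hg, Sum.elim_inr, Fin.val_succ, decide_eq_true_eq]
        exact h
      · refine ⟨(emb ⟨u, Sum.inl v⟩, true), by simp, ?_⟩
        dsimp only
        rw [hext]
        simp only [hg, Sum.elim_inl, decide_eq_true_eq]
        exact h
      · refine ⟨(emb ⟨u, Sum.inr v.castSucc⟩, false), by simp, ?_⟩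
        dsimp only
        rw [hext]
        simp only [hg, Sum.elim_inr, Fin.val_castSucc, decide_eq_false_iff_not, not_le]
        exact h
    · have hne : ∃ p ∈ con e, a p.1 ≠ p.2 := by
        by_contra hno
        push Not at hno
        have := ha e hno
        rw [hx] at this
        exact absurd this (by simp)
      obtain ⟨p, hp, hpa⟩ := hne
      refine ⟨(emb ⟨p.1, Sum.inl p.2⟩, false), ?_, ?_⟩
      · unfold ecE
        exact Finset.mem_image_of_mem _ hp
      · dsimp only
        rw [hext]
        simp only [hg, Sum.elim_inl, decide_eq_false_iff_not]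
        exact fun h => hpa h.symm

end

/-- A constraint satisfaction problem with domain sizes `dm u` and pairwise different
constraints of arity at most `k` is a projection of satisfiability of formulas of width `k`. -/
theorem encode_csp {U : Type} [Fintype U] {dm : U → ℕ} {n k : ℕ} (hk : 3 ≤ k)
    (hn : ∑ u, (2 * dm u + 1) ≤ n) {X : Type}
    (con : X → Finset (Σ u : U, Fin (dm u))) (hinj : Function.Injective con)
    (hcard : ∀ e, (con e).card ≤ k) :
    ∃ φ : Clause n k → (X → Bool) → Bool,
      (∀ c, (∀ x, φ c x = true) ∨ (∀ x, φ c x = false) ∨ ∃ e, ∀ x, φ c x = !(x e)) ∧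
      ∀ x, Satisfiable (univ.filter (fun c : Clause n k => φ c x = true)) ↔
        ∃ a : (u : U) → Fin (dm u), ∀ e : X, (∀ p ∈ con e, a p.1 = p.2) → x e = true := by
  have hc : Fintype.card (Σ u : U, (Fin (dm u) ⊕ Fin (dm u + 1))) ≤ Fintype.card (Fin n) := by
    rw [Fintype.card_sigma, Fintype.card_fin]
    refine le_trans (le_of_eq ?_) hn
    apply Finset.sum_congr rfl
    intro u _
    rw [Fintype.card_sum, Fintype.card_fin, Fintype.card_fin]
    ring
  obtain ⟨emb⟩ := Function.Embedding.nonempty_of_card_le hc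
  refine ⟨fun c x => decide (EFixed emb c.1 ∨ ∃ e, c.1 = ecE emb (con e) ∧ x e = false), ?_, ?_⟩
  · intro c
    by_cases hfix : EFixed emb c.1
    · left
      intro x
      exact decide_eq_true (Or.inl hfix)
    right
    by_cases h : ∃ e, c.1 = ecE emb (con e)
    · right
      obtain ⟨e, hce⟩ := h
      refine ⟨e, fun x => ?_⟩
      by_cases hx : x e = false
      · rw [hx]
        exact decide_eq_true (Or.inr ⟨e, hce, hx⟩)
      · rw [Bool.not_eq_false] at hx
        rw [hx]
        apply decide_eq_false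
        rintro (h1 | ⟨e', h2, h3⟩)
        · exact hfix h1
        · have h5 : e' = e := hinj (ecE_inj emb _ _ (by rw [← h2, hce]))
          rw [h5, hx] at h3
          exact absurd h3 (by simp)
    · left
      intro x
      apply decide_eq_false
      rintro (h1 | ⟨e', h2, _⟩)
      · exact hfix h1
      · exact h ⟨e', h2⟩
  · intro x
    rw [← encode_sat emb con x (fun c => (EFixed emb c ∨ ∃ e, c = ecE emb (con e) ∧ x e = false))
      (fun c => Iff.rfl)]
    have hwidth : ∀ c, (EFixed emb c ∨ ∃ e, c = ecE emb (con e) ∧ x e = false) → c.card ≤ k := by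
      intro c hc
      rcases hc with (⟨u, rfl⟩ | ⟨u, rfl⟩ | ⟨u, v, rfl⟩) | ⟨e, rfl, hx⟩
      · unfold ecA; rw [Finset.card_singleton]; omega
      · unfold ecB; rw [Finset.card_singleton]; omega
      · unfold ecC; exact (Finset.card_le_three).trans hk
      · exact (card_ecE emb _).trans (hcard e)
    constructor
    · rintro ⟨τ, hτ⟩
      refine ⟨τ, ?_⟩
      intro c hc
      obtain ⟨l, hl, h⟩ := hτ ⟨c, hwidth c hc⟩ (by
        rw [Finset.mem_filter]
        exact ⟨Finset.mem_univ _, decide_eq_true hc⟩)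
      exact ⟨l, hl, h⟩
    · rintro ⟨τ, hτ⟩
      refine ⟨τ, ?_⟩
      intro c hc
      rw [Finset.mem_filter] at hc
      exact hτ c.1 (of_decide_eq_true hc.2)

/-- The same with sets of allowed constraints, in terms of the set of clauses that are present. -/
theorem encode_gen {I : Type} [Fintype I] [DecidableEq I] (dom : I → ℕ) {n k : ℕ} (hk : 3 ≤ k)
    (hn : ∑ i, (2 * dom i + 1) ≤ n) {Z : Type} [Fintype Z]
    (θ : Z → Finset (Σ i, Fin (dom i))) (hθ : Function.Injective θ)
    (hθk : ∀ z, (θ z).card ≤ k) :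
    ∃ G : Finset Z → Finset (H13.Clause n k),
      (∀ c, H13.Atom (fun y : Finset Z => c ∉ G y)) ∧
      ∀ y, H13.Satisfiable (G y) ↔
        ∃ a : ∀ i, Fin (dom i), ∀ z, (∀ p ∈ θ z, a p.1 = p.2) → z ∈ y := by
  obtain ⟨φ, hφ, hs⟩ := encode_csp hk hn θ hθ hθk
  refine ⟨fun y => univ.filter (fun c => φ c (fun z => decide (z ∈ y)) = true), ?_, ?_⟩
  · intro c
    have hmem : ∀ y : Finset Z,
        c ∉ univ.filter (fun c => φ c (fun z => decide (z ∈ y)) = true) ↔
          φ c (fun z => decide (z ∈ y)) = false := by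
      intro y
      rw [Finset.mem_filter, Bool.eq_false_iff]
      constructor
      · intro h h1
        exact h ⟨Finset.mem_univ _, h1⟩
      · intro h h1
        exact h h1.2
    rcases hφ c with h | h | ⟨e, h⟩
    · refine Or.inl fun y => ?_
      show ¬ (c ∉ univ.filter (fun c => φ c (fun z => decide (z ∈ y)) = true))
      rw [hmem, h]
      simp
    · refine Or.inr (Or.inl fun y => ?_)
      show c ∉ univ.filter (fun c => φ c (fun z => decide (z ∈ y)) = true)
      rw [hmem, h]
    · refine Or.inr (Or.inr ⟨e, fun y => ?_⟩)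
      show c ∉ univ.filter (fun c => φ c (fun z => decide (z ∈ y)) = true) ↔ e ∈ y
      rw [hmem, h]
      simp
  · intro y
    rw [hs]
    simp only [decide_eq_true_eq]

end H14.NS
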